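import Mathlib

set_option autoImplicit false

/-!
# The generalized van der Waerden game

Maker and Breaker alternately claim natural numbers, Maker first. Maker wants a copy
`a S + b` (`a ≥ 1`) of a given finite set `S`.
-/

namespace Pool.Agent.P8H47.VdwGame

open Combinatorics

/-- The `k`-th number (`k = 0, 1, ...`) which Maker claims if he follows the strategy `σ`, a
function of the list of the numbers claimed by Breaker so far, and Breaker claims
`b 0, b 1, b 2, ...`. -/
def makerMove (σ : List ℕ → ℕ) (b : ℕ → ℕ) (k : ℕ) : ℕ := σ ((List.range k).map b)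

/-- All numbers `b 0, b 1, ...` claimed by Breaker in the play against `σ` are unclaimed at that
moment: the number `b k` differs from `b j` for `j < k` and from Maker's numbers `0, ..., k`. -/
def BreakerLegal (σ : List ℕ → ℕ) (b : ℕ → ℕ) : Prop :=
  ∀ k, (∀ j ≤ k, b k ≠ makerMove σ b j) ∧ ∀ j < k, b k ≠ b j

/-- The first `N` numbers claimed by Maker are unclaimed at that moment. -/
def MakerLegal (σ : List ℕ → ℕ) (b : ℕ → ℕ) (N : ℕ) : Prop :=
  ∀ k < N, ∀ j < k, makerMove σ b k ≠ makerMove σ b j ∧ makerMove σ b k ≠ b j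

/-- The set `T` contains a copy `a S + c` of `S`, with integers `a ≥ 1` and `c`. -/
def HasCopy (S : Finset ℕ) (T : Set ℕ) : Prop :=
  ∃ a c : ℤ, 1 ≤ a ∧ ∀ s ∈ S, ∃ t ∈ T, (t : ℤ) = a * s + c

/-- Maker has an `N`-move strategy for `S`: a strategy such that against every legal play of
Breaker Maker's first `N` moves are legal and the numbers claimed with them contain a copy of
`S`. -/
def HasNMoveStrategy (S : Finset ℕ) (N : ℕ) : Prop :=
  ∃ σ : List ℕ → ℕ, ∀ b : ℕ → ℕ, BreakerLegal σ b →
    MakerLegal σ b N ∧ HasCopy S {t | ∃ k < N, t = makerMove σ b k}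

/-! ### Positions -/

/-- Maker, to move in the position in which `M` and `B` are the sets of claimed numbers, can get
with `N` further moves a set with the property `P`. -/
def CanWin (P : Finset ℕ → Prop) : ℕ → Finset ℕ → Finset ℕ → Prop
  | 0, M, _ => P M
  | N + 1, M, B => ∃ x, x ∉ M ∧ x ∉ B ∧
      ∀ y, y ∉ insert x M → y ∉ B → CanWin P N (insert x M) (insert y B)

theorem makerMove_zero (σ : List ℕ → ℕ) (b : ℕ → ℕ) : makerMove σ b 0 = σ [] := rfl

theorem makerMove_succ (σ : List ℕ → ℕ) (b : ℕ → ℕ) (k : ℕ) :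
    makerMove σ b (k + 1) = makerMove (fun l => σ (b 0 :: l)) (fun i => b (i + 1)) k := by
  unfold makerMove
  rw [List.range_succ_eq_map, List.map_cons, List.map_map]
  rfl

theorem strategy_of_canWin (P : Finset ℕ → Prop) (N : ℕ) : ∀ (M B : Finset ℕ), CanWin P N M B →
    ∃ σ : List ℕ → ℕ, ∀ b : ℕ → ℕ,
      (∀ k, (b k ∉ M ∧ b k ∉ B) ∧ (∀ j ≤ k, b k ≠ makerMove σ b j) ∧ ∀ j < k, b k ≠ b j) →
      (∀ k < N, (makerMove σ b k ∉ M ∧ makerMove σ b k ∉ B) ∧
        ∀ j < k, makerMove σ b k ≠ makerMove σ b j ∧ makerMove σ b k ≠ b j) ∧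
      P (M ∪ (Finset.range N).image (makerMove σ b)) := by
  induction N with
  | zero =>
    intro M B h
    refine ⟨fun _ => 0, fun b _ => ⟨fun k hk => absurd hk (Nat.not_lt_zero k), ?_⟩⟩
    simpa [CanWin] using h
  | succ N ih =>
    intro M B h
    obtain ⟨x, hxM, hxB, hx⟩ := h
    have h1 : ∀ y, ∃ σ : List ℕ → ℕ, y ∉ insert x M → y ∉ B → ∀ b : ℕ → ℕ,
      (∀ k, (b k ∉ insert x M ∧ b k ∉ insert y B) ∧
        (∀ j ≤ k, b k ≠ makerMove σ b j) ∧ ∀ j < k, b k ≠ b j) →
      (∀ k < N, (makerMove σ b k ∉ insert x M ∧ makerMove σ b k ∉ insert y B) ∧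
        ∀ j < k, makerMove σ b k ≠ makerMove σ b j ∧ makerMove σ b k ≠ b j) ∧
      P (insert x M ∪ (Finset.range N).image (makerMove σ b)) := by
      intro y
      by_cases hy : y ∉ insert x M ∧ y ∉ B
      · obtain ⟨σ, hσ⟩ := ih _ _ (hx y hy.1 hy.2)
        exact ⟨σ, fun _ _ => hσ⟩
      · exact ⟨fun _ => 0, fun h1 h2 => absurd ⟨h1, h2⟩ hy⟩
    choose τ hτ using h1
    let σ : List ℕ → ℕ := fun l => match l with
      | [] => x
      | y :: l => τ y l
    have e0 : ∀ b, makerMove σ b 0 = x := fun b => rfl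
    have e1 : ∀ b k, makerMove σ b (k + 1) = makerMove (τ (b 0)) (fun i => b (i + 1)) k := by
      intro b k
      rw [makerMove_succ]
    refine ⟨σ, fun b hb => ?_⟩
    have hb0 : b 0 ∉ insert x M := by
      have h2 := hb 0
      rw [Finset.mem_insert, not_or]
      exact ⟨fun h3 => h2.2.1 0 le_rfl (by rw [h3, e0]), h2.1.1⟩
    have hb0' : b 0 ∉ B := (hb 0).1.2
    have key := hτ (b 0) hb0 hb0' (fun i => b (i + 1)) ?_
    · obtain ⟨k1, k2⟩ := key
      refine ⟨?_, ?_⟩
      · intro k hk
        cases k with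
        | zero =>
          rw [e0]
          exact ⟨⟨hxM, hxB⟩, fun j hj => absurd hj (Nat.not_lt_zero j)⟩
        | succ k =>
          obtain ⟨⟨a1, a2⟩, a3⟩ := k1 k (by omega)
          rw [Finset.mem_insert, not_or] at a1 a2
          rw [e1]
          refine ⟨⟨a1.2, a2.2⟩, ?_⟩
          intro j hj
          cases j with
          | zero =>
            rw [e0]
            exact ⟨a1.1, a2.1⟩
          | succ j =>
            rw [e1]
            exact a3 j (by omega)
      · convert k2 using 1
        ext t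
        simp only [Finset.mem_union, Finset.mem_insert, Finset.mem_image, Finset.mem_range]
        constructor
        · rintro (h | ⟨k, hk, rfl⟩)
          · exact Or.inl (Or.inr h)
          · cases k with
            | zero => exact Or.inl (Or.inl (e0 b))
            | succ k => exact Or.inr ⟨k, by omega, (e1 b k).symm⟩
        · rintro ((h | h) | ⟨k, hk, rfl⟩)
          · exact Or.inr ⟨0, by omega, by rw [e0, h]⟩
          · exact Or.inl h
          · exact Or.inr ⟨k + 1, by omega, e1 b k⟩
    · intro k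
      obtain ⟨⟨a1, a2⟩, a3, a4⟩ := hb (k + 1)
      refine ⟨⟨?_, ?_⟩, ?_, ?_⟩
      · rw [Finset.mem_insert, not_or]
        exact ⟨fun h3 => a3 0 (by omega) (by rw [h3, e0]), a1⟩
      · rw [Finset.mem_insert, not_or]
        exact ⟨a4 0 (by omega), a2⟩
      · intro j hj h3
        exact a3 (j + 1) (by omega) (by rw [e1]; exact h3)
      · intro j hj
        exact a4 (j + 1) (by omega)

/-! ### The pairing strategy on two disjoint boards -/

variable {X : Type*} [Fintype X] [DecidableEq X]

/-- The points of the first board held by Maker or by nobody are completed to a full board. -/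
theorem canWin_pairs (e : X → Bool → ℕ) (he : ∀ p t p' t', e p t = e p' t' → p = p' ∧ t = t')
    (P : Finset ℕ → Prop) (hP : ∀ M, (∀ p, ∃ t, e p t ∈ M) → P M) (N : ℕ) :
    ∀ (M B : Finset ℕ), (Finset.univ.filter (fun p => ¬ ∃ t, e p t ∈ M)).card ≤ N →
      (∀ p, (∃ t, e p t ∈ M) ∨ ((∀ t, e p t ∉ B) ∨
        ((∃ t, e p t ∈ B ∧ e p (!t) ∉ B) ∧
          ∀ q, q ≠ p → (∃ t, e q t ∈ M) ∨ ∀ t, e q t ∉ B))) → CanWin P N M B := by
  induction N with
  | zero =>
    intro M B h _
    apply hP
    intro p
    by_contra hp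
    have : p ∈ Finset.univ.filter (fun p => ¬ ∃ t, e p t ∈ M) := by simpa using hp
    rw [Nat.le_zero, Finset.card_eq_zero] at h
    rw [h] at this
    exact absurd this (Finset.notMem_empty p)
  | succ N ih =>
    intro M B hcard hinv
    -- after every move of Maker the invariant is: every touched pair is held by Maker
    have step : ∀ x, x ∉ M → x ∉ B →
        (Finset.univ.filter (fun p => ¬ ∃ t, e p t ∈ insert x M)).card ≤ N →
        (∀ p, (∃ t, e p t ∈ insert x M) ∨ ∀ t, e p t ∉ B) → CanWin P (N + 1) M B := by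
      intro x hxM hxB hc hI
      refine ⟨x, hxM, hxB, fun y hy1 hy2 => ih _ _ hc ?_⟩
      intro p
      rcases hI p with h1 | h1
      · exact Or.inl h1
      · by_cases hy : ∃ t, e p t = y
        · obtain ⟨t, rfl⟩ := hy
          refine Or.inr (Or.inr ⟨⟨t, Finset.mem_insert_self _ _, ?_⟩, ?_⟩)
          · rw [Finset.mem_insert, not_or]
            refine ⟨fun h2 => ?_, h1 _⟩
            have := (he _ _ _ _ h2).2
            cases t <;> simp at this
          · intro q hq
            rcases hI q with h2 | h2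
            · exact Or.inl h2
            · refine Or.inr fun s hs => ?_
              rw [Finset.mem_insert] at hs
              rcases hs with hs | hs
              · exact hq (he _ _ _ _ hs).1
              · exact h2 s hs
        · refine Or.inr (Or.inl fun t ht => ?_)
          rw [Finset.mem_insert] at ht
          rcases ht with ht | ht
          · exact hy ⟨t, ht⟩
          · exact h1 t ht
    have hdec : ∀ x p t, x = e p t → (¬ ∃ t, e p t ∈ M) →
        (Finset.univ.filter (fun p => ¬ ∃ t, e p t ∈ insert x M)).card ≤ N := by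
      intro x p t hx hp
      have hlt : (Finset.univ.filter (fun p => ¬ ∃ t, e p t ∈ insert x M)) ⊂
          (Finset.univ.filter (fun p => ¬ ∃ t, e p t ∈ M)) := by
        rw [Finset.ssubset_iff_of_subset]
        · refine ⟨p, by simpa using hp, ?_⟩
          simp only [Finset.mem_filter, Finset.mem_univ, true_and, not_not]
          exact ⟨t, by rw [hx]; exact Finset.mem_insert_self _ _⟩
        · intro q hq
          simp only [Finset.mem_filter, Finset.mem_univ, true_and] at hq ⊢
          exact fun ⟨s, hs⟩ => hq ⟨s, Finset.mem_insert_of_mem hs⟩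
      have := Finset.card_lt_card hlt
      omega
    by_cases hthreat : ∃ p t, (¬ ∃ t, e p t ∈ M) ∧ e p t ∈ B ∧ e p (!t) ∉ B ∧
        ∀ q, q ≠ p → (∃ t, e q t ∈ M) ∨ ∀ t, e q t ∉ B
    · obtain ⟨p, t, h1, h2, h3, h4⟩ := hthreat
      refine step (e p (!t)) (fun h => h1 ⟨_, h⟩) h3 (hdec _ p _ rfl h1) ?_
      intro q
      by_cases hq : q = p
      · subst hq
        exact Or.inl ⟨!t, Finset.mem_insert_self _ _⟩
      · rcases h4 q hq with ⟨s, hs⟩ | h5
        · exact Or.inl ⟨s, Finset.mem_insert_of_mem hs⟩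
        · exact Or.inr h5
    · have hclean : ∀ p, (∃ t, e p t ∈ M) ∨ ∀ t, e p t ∉ B := by
        intro p
        rcases hinv p with h1 | h1 | ⟨⟨t, h2, h3⟩, h4⟩
        · exact Or.inl h1
        · exact Or.inr h1
        · by_cases h5 : ∃ t, e p t ∈ M
          · exact Or.inl h5
          · exact absurd ⟨p, t, h5, h2, h3, h4⟩ hthreat
      by_cases hfree : ∃ p, ¬ ∃ t, e p t ∈ M
      · obtain ⟨p, hp⟩ := hfree
        have hB : ∀ t, e p t ∉ B := (hclean p).resolve_left hp
        refine step (e p true) (fun h => hp ⟨_, h⟩) (hB _) (hdec _ p _ rfl hp) ?_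
        intro q
        rcases hclean q with ⟨s, hs⟩ | h5
        · exact Or.inl ⟨s, Finset.mem_insert_of_mem hs⟩
        · exact Or.inr h5
      · -- all pairs are held by Maker: any free number will do
        obtain ⟨x, hx⟩ := Infinite.exists_notMem_finset (M ∪ B)
        rw [Finset.mem_union, not_or] at hx
        have hall : ∀ p, ∃ t, e p t ∈ insert x M := by
          intro p
          by_contra hp
          exact hfree ⟨p, fun ⟨s, hs⟩ => hp ⟨s, Finset.mem_insert_of_mem hs⟩⟩
        refine step x hx.1 hx.2 ?_ (fun p => Or.inl (hall p))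
        rw [Finset.filter_false_of_mem (fun p _ => not_not.2 (hall p))]
        simp

/-! ### A generic image of the Hales-Jewett cube -/

theorem digits_inj {d b : ℕ} : ∀ {g h : Fin d → ℕ}, (∀ i, g i < b) → (∀ i, h i < b) →
    (∑ i, g i * b ^ (i : ℕ)) = ∑ i, h i * b ^ (i : ℕ) → g = h := by
  induction d with
  | zero => intro g h _ _ _; exact Subsingleton.elim _ _
  | succ d ih =>
    intro g h hg hh e
    rw [Fin.sum_univ_succ, Fin.sum_univ_succ] at e
    have e1 : ∀ f : Fin (d + 1) → ℕ, (∑ i : Fin d, f i.succ * b ^ (i.succ : ℕ)) =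
        b * ∑ i : Fin d, f i.succ * b ^ (i : ℕ) := by
      intro f
      rw [Finset.mul_sum]
      refine Finset.sum_congr rfl fun i _ => ?_
      rw [Fin.val_succ, pow_succ]
      ring
    rw [e1, e1] at e
    simp only [Fin.val_zero, pow_zero, mul_one] at e
    have hb : 0 < b := lt_of_le_of_lt (Nat.zero_le _) (hg 0)
    have e0 : g 0 = h 0 := by
      have := congrArg (· % b) e
      simpa [Nat.add_mul_mod_self_left, Nat.mod_eq_of_lt (hg 0), Nat.mod_eq_of_lt (hh 0)] using this
    have e2 : (∑ i : Fin d, g i.succ * b ^ (i : ℕ)) = ∑ i : Fin d, h i.succ * b ^ (i : ℕ) := by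
      rw [e0] at e
      exact Nat.eq_of_mul_eq_mul_left hb (by omega)
    have e3 := ih (fun i => hg i.succ) (fun i => hh i.succ) e2
    funext i
    refine Fin.cases e0 (fun j => ?_) i
    exact congrFun e3 j

/-- **Main theorem.** For every `n` there is `C` such that Maker has a `C`-move strategy for every
set with `n` elements. -/
theorem main (n : ℕ) : ∃ C : ℕ, ∀ S : Finset ℕ, S.card = n → HasNMoveStrategy S C := by
  classical
  obtain ⟨ι, hι, hJ⟩ := Line.exists_mono_in_high_dimension (Fin n) Bool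
  refine ⟨Fintype.card (ι → Fin n), fun S hS => ?_⟩
  -- enumeration of `S`
  let s : Fin n → ℕ := fun i => S.orderEmbOfFin hS i
  have hsinj : Function.Injective s := (S.orderEmbOfFin hS).injective
  have hsS : ∀ x ∈ S, ∃ i, s i = x := by
    intro x hx
    have : x ∈ Set.range (S.orderEmbOfFin hS) := by
      rw [Finset.range_orderEmbOfFin]
      exact hx
    exact this
  obtain ⟨b, hb1, hb⟩ : ∃ b, 1 < b ∧ ∀ i, s i < b := by
    refine ⟨S.sup id + 2, by omega, fun i => ?_⟩
    have : s i ≤ S.sup id := Finset.le_sup (f := id) (S.orderEmbOfFin_mem hS i)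
    omega
  let d := Fintype.card ι
  let E : ι ≃ Fin d := Fintype.equivFin ι
  -- the image of a point of the cube in the copy `t`
  let e : (ι → Fin n) → Bool → ℕ := fun f t =>
    ∑ i : Fin (d + 1), (Fin.snoc (α := fun _ => ℕ) (fun i : Fin d => s (f (E.symm i)))
      (if t then 1 else 0) : Fin (d + 1) → ℕ) i * b ^ (i : ℕ)
  have he : ∀ p t p' t', e p t = e p' t' → p = p' ∧ t = t' := by
    intro p t p' t' h
    have hlt : ∀ (f : ι → Fin n) (t : Bool) (i : Fin (d + 1)),
        (Fin.snoc (α := fun _ => ℕ) (fun i : Fin d => s (f (E.symm i)))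
          (if t then 1 else 0) : Fin (d + 1) → ℕ) i < b := by
      intro f t i
      refine Fin.lastCases ?_ (fun j => ?_) i
      · rw [Fin.snoc_last]
        split_ifs <;> omega
      · rw [Fin.snoc_castSucc]
        exact hb _
    have h1 := digits_inj (hlt p t) (hlt p' t') h
    constructor
    · funext i
      have h2 := congrFun h1 (Fin.castSucc (E i))
      rw [Fin.snoc_castSucc, Fin.snoc_castSucc] at h2
      simpa using hsinj h2
    · have h2 := congrFun h1 (Fin.last d)
      rw [Fin.snoc_last, Fin.snoc_last] at h2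
      cases t <;> cases t' <;> simp at h2 ⊢
  have hline : ∀ (l : Line (Fin n) ι) (t : Bool), ∃ a c : ℤ, 1 ≤ a ∧
      ∀ i, (e (fun j => (l.idxFun j).getD i) t : ℤ) = a * s i + c := by
    intro l t
    refine ⟨∑ j : Fin d, if l.idxFun (E.symm j) = none then (b : ℤ) ^ (j : ℕ) else 0,
      (∑ j : Fin d, ((l.idxFun (E.symm j)).map (fun i => (s i : ℤ) * (b : ℤ) ^ (j : ℕ))).getD 0) +
        (if t then 1 else 0) * (b : ℤ) ^ d, ?_, ?_⟩
    · obtain ⟨j, hj⟩ := l.proper
      have h1 : (if l.idxFun (E.symm (E j)) = none then (b : ℤ) ^ ((E j : Fin d) : ℕ) else 0) ≤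
          ∑ j : Fin d, if l.idxFun (E.symm j) = none then (b : ℤ) ^ (j : ℕ) else 0 := by
        refine Finset.single_le_sum (f := fun j : Fin d =>
          if l.idxFun (E.symm j) = none then (b : ℤ) ^ (j : ℕ) else 0) (fun j _ => ?_)
          (Finset.mem_univ (E j))
        split_ifs <;> positivity
      rw [Equiv.symm_apply_apply, if_pos hj] at h1
      refine le_trans ?_ h1
      exact one_le_pow₀ (by exact_mod_cast hb1.le)
    · intro i
      simp only [e]
      rw [Fin.sum_univ_castSucc]
      simp only [Fin.snoc_castSucc, Fin.snoc_last, Fin.val_castSucc, Fin.val_last]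
      push_cast
      rw [← add_assoc, Finset.sum_mul, ← Finset.sum_add_distrib]
      congr 1
      · refine Finset.sum_congr rfl fun j _ => ?_
        rcases hj : l.idxFun (E.symm j) with _ | x
        · simp; ring
        · simp
      
  have key : CanWin (fun M => HasCopy S (M : Set ℕ)) (Fintype.card (ι → Fin n)) ∅ ∅ := by
    refine canWin_pairs e he _ ?_ _ ∅ ∅ ?_ ?_
    · intro M hM
      choose C hC using hM
      obtain ⟨l, c, hl⟩ := hJ C
      obtain ⟨a, c', ha, h⟩ := hline l c
      refine ⟨a, c', ha, fun x hx => ?_⟩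
      obtain ⟨i, rfl⟩ := hsS x hx
      refine ⟨e (fun j => (l.idxFun j).getD i) c, ?_, h i⟩
      have h1 := hC (l i)
      rw [hl i] at h1
      exact h1
    · exact (Finset.card_filter_le _ _).trans (le_of_eq Finset.card_univ)
    · intro p
      exact Or.inr (Or.inl fun t => Finset.notMem_empty _)
  obtain ⟨σ, hσ⟩ := strategy_of_canWin _ _ _ _ key
  refine ⟨σ, fun b' hb' => ?_⟩
  obtain ⟨h1, h2⟩ := hσ b' (fun k => ⟨⟨Finset.notMem_empty _, Finset.notMem_empty _⟩,
    (hb' k).1, (hb' k).2⟩)
  refine ⟨fun k hk => (h1 k hk).2, ?_⟩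
  obtain ⟨a, c, ha, h⟩ := h2
  refine ⟨a, c, ha, fun x hx => ?_⟩
  obtain ⟨t, ht, hte⟩ := h x hx
  refine ⟨t, ?_, hte⟩
  rw [Finset.empty_union, Finset.mem_coe, Finset.mem_image] at ht
  obtain ⟨k, hk, rfl⟩ := ht
  exact ⟨k, Finset.mem_range.1 hk, rfl⟩

end Pool.Agent.P8H47.VdwGame
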